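import Pool.Agent.W209.KT.Stm

/-!
Project KT: existence of the affine subspace.
-/

set_option autoImplicit false

open Filter Topology

namespace Pool.Agent.W40.KT

open Pool.Agent.W209.KT

theorem D_pos (k : ℕ) : 0 < D k := by unfold D; positivity

theorem D_succ (k : ℕ) : D (k + 1) = D k ^ 36 := by
  unfold D
  rw [← pow_mul]
  congr 1
  ring

theorem D_ge (k : ℕ) : (128 : ℝ) ≤ D k := by
  have h : 2 ^ 7 ≤ D k := by
    unfold D
    apply Nat.pow_le_pow_right (by norm_num)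
    have : 0 < 36 ^ k := by positivity
    omega
  have h' : ((2 ^ 7 : ℕ) : ℝ) ≤ (D k : ℝ) := by exact_mod_cast h
  calc (128 : ℝ) = ((2 ^ 7 : ℕ) : ℝ) := by norm_num
    _ ≤ D k := h'

theorem p_pos (k : ℕ) (j : Fin 2) : 0 < p k j := by
  unfold p E
  split_ifs
  · exact D_pos k
  · positivity

theorem p_le (k : ℕ) (j : Fin 2) : p k j ≤ D k := by
  unfold p E
  split_ifs
  · exact le_rfl
  · exact Nat.pow_log_le_self 3 (D_pos k).ne'

theorem lt_p (k : ℕ) (j : Fin 2) : D k < 3 * p k j := by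
  unfold p E
  split_ifs
  · have := D_pos k
    omega
  · have h := Nat.lt_pow_succ_log_self (b := 3) (by norm_num) (D k)
    rw [Nat.succ_eq_add_one, pow_succ] at h
    omega

theorem lev_bd (k : ℕ) : (2 : ℝ) ^ 23 * 2 ^ (12 * lev k) ≤ (D k : ℝ) ^ 11 := by
  have h1 : lev k ≤ k := by
    have := Nat.log_lt_self 256 (show k + 1 ≠ 0 by omega)
    unfold lev
    omega
  have h2 : k < 36 ^ k := Nat.lt_pow_self (by norm_num)
  have h3 : 2 ^ 23 * 2 ^ (12 * lev k) ≤ (D k) ^ 11 := by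
    unfold D
    rw [← pow_add, ← pow_mul]
    apply Nat.pow_le_pow_right (by norm_num)
    omega
  exact_mod_cast h3

theorem v_bd (j : Fin 2) : 0 ≤ v j ∧ v j ≤ 2 := by
  unfold v
  split_ifs
  · norm_num
  · exact ⟨Real.sqrt_nonneg _, Real.sqrt_le_iff.2 ⟨by norm_num, by norm_num⟩⟩

theorem g_bd (u : ℝ) (h1 : 1 ≤ u) (h2 : u ≤ 2) (l : Fin 11) : |g u l| ≤ 2 ^ 20 := by
  unfold g
  rw [abs_mul, abs_pow, abs_neg, abs_of_nonneg (by linarith : 0 ≤ u)]
  have a : |((Nat.choose 10 l.1 : ℕ) : ℝ)| ≤ 2 ^ 10 := by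
    rw [abs_of_nonneg (by positivity)]
    have := Nat.choose_le_two_pow 10 l.1
    exact_mod_cast this
  have b : u ^ (10 - l.1) ≤ 2 ^ 10 := by
    calc u ^ (10 - l.1) ≤ 2 ^ (10 - l.1) := pow_le_pow_left₀ (by linarith) h2 _
      _ ≤ 2 ^ 10 := pow_le_pow_right₀ (by norm_num) (by omega)
  calc |((Nat.choose 10 l.1 : ℕ) : ℝ)| * u ^ (10 - l.1) ≤ 2 ^ 10 * 2 ^ 10 :=
        mul_le_mul a b (by positivity) (by norm_num)
    _ = 2 ^ 20 := by norm_num

theorem del_bd (h : S_cov) (k : ℕ) (j : Fin 2) (l : Fin 11) :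
    |v j / (F k * p k j) * g (u k) l| ≤ 1 / (D k : ℝ) ^ 2 := by
  have hu := h.2.1 k
  have hg := g_bd (u k) hu.1 hu.2 l
  have hv := v_bd j
  have hX : (0 : ℝ) < D k := by exact_mod_cast D_pos k
  have hp : (D k : ℝ) / 3 ≤ p k j := by
    have : (D k : ℝ) < 3 * p k j := by exact_mod_cast lt_p k j
    linarith
  have hY : (0 : ℝ) < 2 ^ (12 * lev k) := by positivity
  have hFp : (D k : ℝ) ^ 13 / (3 * 2 ^ (12 * lev k)) ≤ F k * p k j := by
    unfold F
    calc (D k : ℝ) ^ 13 / (3 * 2 ^ (12 * lev k))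
        = (D k : ℝ) ^ 12 / 2 ^ (12 * lev k) * (D k / 3) := by field_simp
      _ ≤ _ := mul_le_mul_of_nonneg_left hp (by positivity)
  have hFp0 : 0 < F k * p k j := lt_of_lt_of_le (by positivity) hFp
  have e : |v j / (F k * p k j) * g (u k) l| = v j * |g (u k) l| / (F k * p k j) := by
    rw [abs_mul, abs_div, abs_of_pos hFp0, abs_of_nonneg hv.1]
    ring
  rw [e]
  have hn : v j * |g (u k) l| ≤ 2 * 2 ^ 20 := mul_le_mul hv.2 hg (abs_nonneg _) (by norm_num)
  have hl := lev_bd k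
  calc v j * |g (u k) l| / (F k * p k j)
      ≤ (2 * 2 ^ 20) / ((D k : ℝ) ^ 13 / (3 * 2 ^ (12 * lev k))) := by
        apply div_le_div₀ (by norm_num) hn (by positivity) hFp
    _ = (6 * 2 ^ 20 * 2 ^ (12 * lev k)) / (D k : ℝ) ^ 13 := by
        field_simp
        ring
    _ ≤ (D k : ℝ) ^ 11 / (D k : ℝ) ^ 13 := by
        apply div_le_div_of_nonneg_right _ (by positivity)
        refine le_trans ?_ hl
        apply mul_le_mul_of_nonneg_right (by norm_num) hY.le
    _ = 1 / (D k : ℝ) ^ 2 := by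
        field_simp

theorem adj (q : ℕ) (hq : q.Prime) (y : ℝ) :
    ∃ n : ℤ, |(n : ℝ) - y| ≤ 3 / 2 ∧ ∀ b : ℕ, IsCoprime n ((q ^ b : ℕ) : ℤ) := by
  have hp : Prime (q : ℤ) := Nat.prime_iff_prime_int.1 hq
  have h := abs_sub_round y
  rw [abs_le] at h
  have hc : ∀ n : ℤ, ¬ (q : ℤ) ∣ n → ∀ b : ℕ, IsCoprime n ((q ^ b : ℕ) : ℤ) := by
    intro n hn b
    rw [Nat.cast_pow]
    exact ((hp.irreducible.coprime_iff_not_dvd).2 hn).symm.pow_right
  by_cases hd : (q : ℤ) ∣ round y
  · refine ⟨round y + 1, ?_, hc _ ?_⟩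
    · rw [abs_le]
      push_cast
      constructor <;> linarith
    · intro h1
      have h2 : (q : ℤ) ∣ 1 := by
        have := dvd_sub h1 hd
        simpa using this
      exact hp.not_dvd_one h2
  · refine ⟨round y, ?_, hc _ hd⟩
    rw [abs_le]
    constructor <;> linarith

theorem prm (j : Fin 2) : (if j = 0 then 2 else 3 : ℕ).Prime := by
  split_ifs
  · exact Nat.prime_two
  · exact Nat.prime_three

/-- the sequence -/
noncomputable def sq : ℕ → Fin 2 → Fin 11 → ℤ
  | 0, _, _ => 1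
  | k + 1, j, l => Classical.choose (adj _ (prm j) ((p (k + 1) j : ℝ) *
      ((sq k j l : ℝ) / p k j + v j / (F k * p k j) * g (u k) l)))

theorem sq_spec (k : ℕ) (j : Fin 2) (l : Fin 11) :
    |(sq (k + 1) j l : ℝ) - (p (k + 1) j : ℝ) *
      ((sq k j l : ℝ) / p k j + v j / (F k * p k j) * g (u k) l)| ≤ 3 / 2 ∧
    ∀ b : ℕ, IsCoprime (sq (k + 1) j l) (((if j = 0 then 2 else 3 : ℕ) ^ b : ℕ) : ℤ) := by
  rw [sq]
  exact Classical.choose_spec (adj _ (prm j) ((p (k + 1) j : ℝ) *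
      ((sq k j l : ℝ) / p k j + v j / (F k * p k j) * g (u k) l)))

theorem sq_copr (k : ℕ) (j : Fin 2) (l : Fin 11) : IsCoprime (sq k j l) (p k j : ℤ) := by
  cases k with
  | zero =>
    rw [sq]
    exact isCoprime_one_left
  | succ k =>
    have h := (sq_spec k j l).2
    unfold p
    by_cases hj : j = 0
    · rw [if_pos hj]
      have h1 := h (1000 * 36 ^ (k + 1))
      rw [if_pos hj] at h1
      exact h1
    · rw [if_neg hj]
      have h1 := h (Nat.log 3 (D (k + 1)))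
      rw [if_neg hj] at h1
      exact h1

attribute [local irreducible] D

/-- the rational approximations -/
noncomputable def xs (j : Fin 2) (l : Fin 11) (k : ℕ) : ℝ := (sq k j l : ℝ) / p k j

theorem xs_step (k : ℕ) (j : Fin 2) (l : Fin 11) :
    |xs j l (k + 1) - xs j l k - v j / (F k * p k j) * g (u k) l| ≤
      (9 / 2) / (D k : ℝ) ^ 36 := by
  have h := (sq_spec k j l).1
  have hp : (0 : ℝ) < p (k + 1) j := by exact_mod_cast p_pos (k + 1) j
  have e : xs j l (k + 1) - xs j l k - v j / (F k * p k j) * g (u k) l =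
      ((sq (k + 1) j l : ℝ) - (p (k + 1) j : ℝ) *
      ((sq k j l : ℝ) / p k j + v j / (F k * p k j) * g (u k) l)) / p (k + 1) j := by
    unfold xs
    rw [sub_div, mul_div_cancel_left₀ _ hp.ne']
    ring
  rw [e, abs_div, abs_of_pos hp]
  have h3 : (D k : ℝ) ^ 36 < 3 * p (k + 1) j := by
    have := lt_p (k + 1) j
    rw [D_succ] at this
    exact_mod_cast this
  have hD : (0 : ℝ) < (D k : ℝ) ^ 36 := by
    have : (0 : ℝ) < D k := by exact_mod_cast D_pos k
    positivity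
  calc _ ≤ (3 / 2) / (p (k + 1) j : ℝ) := div_le_div_of_nonneg_right h hp.le
    _ ≤ (9 / 2) / (D k : ℝ) ^ 36 := by
      rw [div_le_div_iff₀ hp hD]
      linarith

theorem xs_step2 (h : S_cov) (k : ℕ) (j : Fin 2) (l : Fin 11) :
    |xs j l (k + 1) - xs j l k| ≤ 2 / (D k : ℝ) ^ 2 := by
  have h1 := xs_step k j l
  have h2 := del_bd h k j l
  have hD := D_ge k
  have hD0 : (0 : ℝ) < D k := by linarith
  have h3 : (9 / 2) / (D k : ℝ) ^ 36 ≤ 1 / (D k : ℝ) ^ 2 := by
    rw [div_le_div_iff₀ (by positivity) (by positivity)]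
    have e : (D k : ℝ) ^ 36 = (D k : ℝ) ^ 34 * (D k : ℝ) ^ 2 := by ring
    have e2 : (9 / 2 : ℝ) ≤ (D k : ℝ) ^ 34 := by
      calc (9 / 2 : ℝ) ≤ D k := by linarith
        _ = (D k : ℝ) ^ 1 := (pow_one _).symm
        _ ≤ (D k : ℝ) ^ 34 := pow_le_pow_right₀ (by linarith) (by norm_num)
    rw [e, one_mul]
    exact mul_le_mul_of_nonneg_right e2 (by positivity)
  have e : xs j l (k + 1) - xs j l k = (xs j l (k + 1) - xs j l k -
      v j / (F k * p k j) * g (u k) l) + v j / (F k * p k j) * g (u k) l := by ring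
  rw [e]
  refine (abs_add_le _ _).trans ?_
  have : 2 / (D k : ℝ) ^ 2 = 1 / (D k : ℝ) ^ 2 + 1 / (D k : ℝ) ^ 2 := by ring
  rw [this]
  linarith

theorem D_grow (n m : ℕ) : (2 : ℝ) ^ m * D n ≤ D (n + m) := by
  induction m with
  | zero => simp
  | succ m ih =>
    rw [← add_assoc, D_succ]
    push_cast
    have hD := D_ge (n + m)
    calc (2 : ℝ) ^ (m + 1) * D n = 2 * (2 ^ m * D n) := by ring
      _ ≤ 2 * D (n + m) := by linarith
      _ ≤ D (n + m) * D (n + m) := by nlinarith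
      _ = (D (n + m) : ℝ) ^ 2 := by ring
      _ ≤ (D (n + m) : ℝ) ^ 36 := pow_le_pow_right₀ (by linarith) (by norm_num)

theorem xs_geo (h : S_cov) (n m : ℕ) (j : Fin 2) (l : Fin 11) :
    dist (xs j l (n + m)) (xs j l (n + (m + 1))) ≤ 4 / (D n : ℝ) ^ 2 / 2 / 2 ^ m := by
  rw [dist_comm, Real.dist_eq, ← add_assoc]
  refine (xs_step2 h (n + m) j l).trans ?_
  have hg := D_grow n m
  have hD : (0 : ℝ) < D n := by exact_mod_cast D_pos n
  have h2 : (1 : ℝ) ≤ 2 ^ m := one_le_pow₀ (by norm_num)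
  have h3 : (2 : ℝ) ^ m * (D n : ℝ) ^ 2 ≤ (D (n + m) : ℝ) ^ 2 := by
    calc (2 : ℝ) ^ m * (D n : ℝ) ^ 2 ≤ ((2 : ℝ) ^ m) ^ 2 * (D n : ℝ) ^ 2 := by
          apply mul_le_mul_of_nonneg_right _ (by positivity)
          nlinarith
      _ = ((2 : ℝ) ^ m * (D n : ℝ)) ^ 2 := by ring
      _ ≤ (D (n + m) : ℝ) ^ 2 := pow_le_pow_left₀ (by positivity) hg 2
  have e : 4 / (D n : ℝ) ^ 2 / 2 / 2 ^ m = 2 / (2 ^ m * (D n : ℝ) ^ 2) := by
    field_simp
    norm_num
  rw [e]
  exact div_le_div_of_nonneg_left (by norm_num) (by positivity) h3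

theorem ex (h : S_cov) : S_ex := by
  have hlim : ∀ j l, ∃ a : ℝ, Tendsto (xs j l) atTop (𝓝 a) := by
    intro j l
    apply cauchySeq_tendsto_of_complete
    apply cauchySeq_of_le_geometric_two (C := 4 / (D 0 : ℝ) ^ 2)
    intro m
    have := xs_geo h 0 m j l
    rw [zero_add, zero_add] at this
    exact this
  choose A hA using hlim
  have hdist : ∀ n j l, |xs j l n - A j l| ≤ 4 / (D n : ℝ) ^ 2 := by
    intro n j l
    have h1 : Tendsto (fun m => xs j l (n + m)) atTop (𝓝 (A j l)) := by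
      have := (tendsto_add_atTop_iff_nat (f := xs j l) n).2 (hA j l)
      simpa [add_comm] using this
    have h2 := dist_le_of_le_geometric_two_of_tendsto₀ (C := 4 / (D n : ℝ) ^ 2)
      (f := fun m => xs j l (n + m)) (fun m => xs_geo h n m j l) h1
    rw [Real.dist_eq] at h2
    simpa using h2
  have hsmall : ∀ n, 4 / (D n : ℝ) ^ 2 ≤ 1 / 4 := by
    intro n
    have hD := D_ge n
    rw [div_le_div_iff₀ (by positivity) (by norm_num)]
    nlinarith
  refine ⟨A, sq, ?_, ?_, ?_, ?_⟩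
  · intro j l
    have h0 := hdist 0 j l
    have h1 := hsmall 0
    have h2 : |xs j l 0| ≤ 1 / 2 := by
      unfold xs
      rw [sq]
      have hp : (2 : ℝ) ≤ p 0 j := by
        have a := D_ge 0
        have b : (D 0 : ℝ) < 3 * p 0 j := by exact_mod_cast lt_p 0 j
        linarith
      rw [Int.cast_one, abs_of_pos (by positivity)]
      rw [div_le_div_iff₀ (by linarith) (by norm_num)]
      linarith
    have h3 : |A j l| ≤ |xs j l 0| + |xs j l 0 - A j l| := by
      have : A j l = xs j l 0 - (xs j l 0 - A j l) := by ring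
      calc |A j l| = |xs j l 0 - (xs j l 0 - A j l)| := by rw [← this]
        _ ≤ _ := abs_sub _ _
    linarith
  · intro k j l
    have hp : (0 : ℝ) < p k j := by exact_mod_cast p_pos k j
    have h0 := hdist 0 j l
    have hk := hdist k j l
    have h1 := hsmall 0
    have h1k := hsmall k
    have h2 : |xs j l 0| ≤ 1 / 2 := by
      unfold xs
      rw [sq]
      have hp : (2 : ℝ) ≤ p 0 j := by
        have a := D_ge 0
        have b : (D 0 : ℝ) < 3 * p 0 j := by exact_mod_cast lt_p 0 j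
        linarith
      rw [Int.cast_one, abs_of_pos (by positivity)]
      rw [div_le_div_iff₀ (by linarith) (by norm_num)]
      linarith
    have h3 : |xs j l k| ≤ 2 := by
      rw [abs_le] at *
      constructor <;> linarith [h0.1, h0.2, hk.1, hk.2, h2.1, h2.2]
    have e : (sq k j l : ℝ) = xs j l k * p k j := by
      unfold xs
      field_simp
    rw [e, abs_mul, abs_of_pos hp]
    exact mul_le_mul_of_nonneg_right h3 hp.le
  · intro k j
    exact sq_copr k j 10
  · intro k j l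
    have h1 := xs_step k j l
    have h2 := hdist (k + 1) j l
    have hD := D_ge k
    have hD0 : (0 : ℝ) < D k := by linarith
    have h3 : 4 / (D (k + 1) : ℝ) ^ 2 ≤ 4 / (D k : ℝ) ^ 36 := by
      rw [D_succ]
      push_cast
      apply div_le_div_of_nonneg_left (by norm_num) (by positivity)
      rw [← pow_mul]
      exact pow_le_pow_right₀ (by linarith) (by norm_num)
    have e : A j l - (sq k j l : ℝ) / p k j - v j / (F k * p k j) * g (u k) l =
        (xs j l (k + 1) - xs j l k - v j / (F k * p k j) * g (u k) l) -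
          (xs j l (k + 1) - A j l) := by
      unfold xs
      ring
    rw [e]
    refine (abs_sub _ _).trans ?_
    have h4 : 0 < 1 / (D k : ℝ) ^ 36 := by positivity
    have e20 : 20 / (D k : ℝ) ^ 36 = 20 * (1 / (D k : ℝ) ^ 36) := by ring
    have e92 : (9 / 2) / (D k : ℝ) ^ 36 = (9 / 2) * (1 / (D k : ℝ) ^ 36) := by ring
    have e4 : 4 / (D k : ℝ) ^ 36 = 4 * (1 / (D k : ℝ) ^ 36) := by ring
    rw [e20]
    rw [e92] at h1
    rw [e4] at h3
    linarith

end Pool.Agent.W40.KT
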